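import Pool.Agent.X172.GR.Asm
import Pool.Agent.X168.GR.TY
import Pool.Agent.X68.GR.LEC
import Pool.Agent.X131.GR.REQ
import Pool.Agent.X176.GR.REL
import Pool.Agent.X9.GR.Rer
import Pool.Agent.X284.GR.FIN
import Pool.Agent.X208.GR.LOOP
import Pool.Agent.X107.GR.COM
import Pool.Agent.X332.GR.ADJ
import Pool.Agent.X228.GR.Lev
import Pool.Agent.X96.GRC.CYS
import Pool.Agent.X153.GR.GIR
import Pool.Agent.X47.GRM.Min

/-! MP_eff4ce_al, Q1 (answer: yes): there are finite star-free graphs `G k`, each containing a cycle,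
of rank at most `12` and of girth larger than `k`.  The definitions `commGraph`, `StarFree`, `RankLE`
are in `Pool/Agent/X172/GR/Asm.lean`, where the construction is put together from its parts. -/

set_option autoImplicit false

namespace Pool.Agent.Results.MP_eff4ce_al.BoundedRankUnboundedGirth

open Pool.Agent.X172.GR

theorem main : ∀ g : ℕ, ∃ (S : Type) (_ : Semigroup S), Finite S ∧
    (∃ A : Finset S, A.card ≤ 12 ∧ Subsemigroup.closure (A : Set S) = ⊤) ∧
    ¬ (commGraph S).IsAcyclic ∧ g < (commGraph S).girth :=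
  assemble Pool.Agent.X168.GR.t_TY Pool.Agent.X68.GR.LEC.t_LEC Pool.Agent.X131.GR.REQ.t
    Pool.Agent.X176.GR.t_REL Pool.Agent.X9.GR.t_RER Pool.Agent.X284.GR.t_FIN
    Pool.Agent.X208.GR.t_LOOP Pool.Agent.X107.GR.COM.t Pool.Agent.X332.GR.t_ADJ
    Pool.Agent.X332.GR.t_ONE Pool.Agent.X228.GR.lev Pool.Agent.X96.GRC.t_CYS
    Pool.Agent.X153.GR.t_GIR Pool.Agent.X47.GRM.t_MIN

/-- There are finite star-free graphs `G 0, G 1, ...`, each containing a cycle, of rank at most `12`
(`G k` is isomorphic to the commuting graph of a finite semigroup with at most `12` generators), such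
that the girth of `G k` is larger than `k`; in particular the girths tend to infinity. -/
theorem result : ∃ (V : ℕ → Type) (G : ∀ k, SimpleGraph (V k)),
    (∀ k, Finite (V k) ∧ StarFree (G k) ∧ ¬ (G k).IsAcyclic ∧ k < (G k).girth ∧
      RankLE (G k) 12) ∧
    Filter.Tendsto (fun k => (G k).girth) Filter.atTop Filter.atTop := by
  choose S iS h using main
  refine ⟨fun k => {x : S k // x ∉ @Set.center (S k) (iS k).toMul},
    fun k => @commGraph (S k) (iS k), ?_, ?_⟩
  · intro k
    letI := iS k
    obtain ⟨hfin, hA, hac, hg⟩ := h k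
    haveI : Finite (S k) := hfin
    exact ⟨inferInstance, starFree_commGraph (S k), hac, hg,
      S k, iS k, hfin, hA, ⟨SimpleGraph.Iso.refl⟩⟩
  · apply Filter.tendsto_atTop_mono (f := fun k => k)
    · intro k
      exact (h k).2.2.2.le
    · exact Filter.tendsto_id

end Pool.Agent.Results.MP_eff4ce_al.BoundedRankUnboundedGirth
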